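import Pool.Agent.Helper63.Sey3.Goals

/-!
# Packet SEY3-IN (project SEY3, MP_b6b2d3_co): the random insertion
-/

set_option autoImplicit false

namespace Pool.Agent.Helper71.Sey3

open Pool.Agent.Helper41.Girth4 (Pr Pr_eq_card Pr_nonneg Pr_congr Pr_mono Pr_le_one Pr_true
  Pr_fiber Pr_equiv Pr_prod Pr_fst Pr_pi)
open Pool.Agent.Helper8.Sey (near NearBd near_symm near_three)
open Pool.Agent.Helper63.Sey3

section

variable {V : Type} (P : Sy V)

/-! ### The colouring does not depend on the coins and the proposals -/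

theorem ite_cg {α : Type} {b c : Prop} {i1 : Decidable b} {i2 : Decidable c} {x y u v : α}
    (h : b ↔ c) (h1 : x = u) (h2 : y = v) :
    @ite α b i1 x y = @ite α c i2 u v := by
  by_cases hb : b
  · rw [if_pos hb, if_pos (h.1 hb), h1]
  · rw [if_neg hb, if_neg (fun hc => hb (h.2 hc)), h2]

theorem st_congr {ω ω' : P.Om} (h : ∀ v, (ω v).1 = (ω' v).1 ∧ (ω v).2.1 = (ω' v).2.1) (i : ℕ) :
    P.st ω i = P.st ω' i := by
  have h1 : ∀ v, P.al (ω v) = P.al (ω' v) := fun v => by unfold Sy.al; rw [(h v).1]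
  have h2 : ∀ v, P.co (ω v) = P.co (ω' v) := fun v => by unfold Sy.co; rw [(h v).1]
  have h3 : ∀ v, P.rd (ω v) = P.rd (ω' v) := fun v => by unfold Sy.rd; rw [(h v).2]
  have h4 : ∀ v, P.pm (ω v) = P.pm (ω' v) := fun v => by unfold Sy.pm; rw [(h v).2]
  induction i with
  | zero =>
    show P.c0 ω = P.c0 ω'
    funext v
    exact ite_cg (by simp only [h1, h2]) (by rw [h2]) rfl
  | succ i ih =>
    rw [P.st_succ, P.st_succ, ih]
    have h5 : ∀ v, P.pk ω (P.st ω' i) v = P.pk ω' (P.st ω' i) v := fun v => by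
      unfold Sy.pk
      rw [h4]
    funext v
    exact ite_cg Iff.rfl rfl (ite_cg (by simp only [h3, h5]) (by rw [h5]) rfl)

theorem col_congr {ω ω' : P.Om} (h : ∀ v, (ω v).1 = (ω' v).1 ∧ (ω v).2.1 = (ω' v).2.1) :
    P.col ω = P.col ω' := st_congr P h P.Z

theorem isC_congr {ω ω' : P.Om} (h : P.col ω = P.col ω') (v : V) (g : ZMod P.N) :
    P.isC ω v g ↔ P.isC ω' v g := by
  unfold Sy.isC
  rw [h]

theorem Ms_congr {ω ω' : P.Om} (h : P.col ω = P.col ω') (v : V) :
    P.Ms ω v ↔ P.Ms ω' v := by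
  unfold Sy.Ms
  rw [h]

theorem Tm_congr {ω ω' : P.Om} (h : P.col ω = P.col ω') (w : V) (g : ZMod P.N) :
    P.Tm ω w g ↔ P.Tm ω' w g := by
  unfold Sy.Tm
  simp only [isC_congr P h]

/-! ### Classes -/

theorem card_cl_le (l : ℕ) (hl : l < P.K) (W : Finset (ZMod P.N)) :
    (Finset.univ.filter fun b : Fin P.qm => P.cl l b ∈ W).card ≤ W.card := by
  apply Finset.card_le_card_of_injOn (fun b : Fin P.qm => P.cl l b)
  · intro b hb
    exact (Finset.mem_filter.1 hb).2
  · intro b _ b' _ hbb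
    exact Fin.ext (P.cl_inj hl hl b.2 b'.2 hbb).2

theorem card_cl_le' (l : ℕ) (hl : l < P.K) (W : Finset (ZMod P.N)) :
    (Finset.univ.filter fun b : Fin P.q => (b : ℕ) < P.qm ∧ P.cl l b ∈ W).card ≤ W.card := by
  apply Finset.card_le_card_of_injOn (fun b : Fin P.q => P.cl l b)
  · intro b hb
    exact (Finset.mem_filter.1 hb).2.2
  · intro b hb b' hb' hbb
    exact Fin.ext (P.cl_inj hl hl (Finset.mem_filter.1 hb).2.1 (Finset.mem_filter.1 hb').2.1 hbb).2

/-- the three classes around `cl l a` are in parts near to `l` -/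
theorem near_of_mem {l l' a b : ℕ} (hl : l < P.K) (hl' : l' < P.K) (ha : a < P.qm) (hb : b < P.qm)
    (h : P.cl l' b = P.cl l a - 1 ∨ P.cl l' b = P.cl l a ∨ P.cl l' b = P.cl l a + 1) :
    near P.K l l' := by
  rcases h with h | h | h
  · exact near_symm (P.near_of_succ hl' hl hb ha (by rw [h]; ring))
  · rw [(P.cl_inj hl' hl hb ha h).1]
    exact P.near_self l
  · exact P.near_of_succ hl hl' ha hb h.symm

/-- at most `3 D` neighbours in near parts -/
theorem card_near_le [Fintype V] (w : V) :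
    Nat.card {u // P.H.Adj w u ∧ near P.K (P.part w) (P.part u)} ≤ 3 * P.D := by
  classical
  obtain ⟨S, hS, hS'⟩ := near_three P.K (P.part w)
  have h1 : (Finset.univ.filter fun u => P.H.Adj w u ∧ near P.K (P.part w) (P.part u)) ⊆
      (S.filter fun m => m < P.K ∧ near P.K (P.part w) m).biUnion
        fun m => Finset.univ.filter fun u => P.H.Adj w u ∧ P.part u = m := by
    intro u hu
    obtain ⟨h2, h3⟩ := (Finset.mem_filter.1 hu).2
    refine Finset.mem_biUnion.2 ⟨P.part u, Finset.mem_filter.2 ⟨hS' _ (P.part_lt u) h3,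
      P.part_lt u, h3⟩, Finset.mem_filter.2 ⟨Finset.mem_univ _, h2, rfl⟩⟩
  rw [Nat.card_eq_fintype_card, Fintype.card_subtype]
  refine (Finset.card_le_card h1).trans ?_
  refine (Finset.card_biUnion_le_card_mul _ _ P.D ?_).trans ?_
  · intro m hm
    obtain ⟨h2, h3, h4⟩ := Finset.mem_filter.1 hm
    have h5 := P.hnear.2 w m h3 h4
    rw [Nat.card_eq_fintype_card, Fintype.card_subtype] at h5
    exact h5
  · exact Nat.mul_le_mul_right _ ((Finset.card_filter_le _ _).trans hS)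

/-! ### Estimates -/

theorem one_sub_ge {x : ℝ} (h0 : 0 ≤ x) (h1 : x ≤ 1 / 2) : Real.exp (-(2 * x)) ≤ 1 - x := by
  have h2 : 1 + 2 * x ≤ Real.exp (2 * x) := by
    have := Real.add_one_le_exp (2 * x)
    linarith
  rw [Real.exp_neg]
  have h3 : (0 : ℝ) < Real.exp (2 * x) := Real.exp_pos _
  rw [inv_le_iff_one_le_mul₀ h3]
  nlinarith

theorem pow_ge (n D : ℕ) (hn : 6 ≤ n) (hD : D ≤ 2 * n) :
    Real.exp (-36) ≤ (1 - 3 / (n : ℝ)) ^ (3 * D) := by
  have hn' : (6 : ℝ) ≤ n := by exact_mod_cast hn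
  have hpos : (0 : ℝ) < n := by linarith
  have hD' : (D : ℝ) ≤ 2 * n := by exact_mod_cast hD
  have h1 : (3 : ℝ) / n ≤ 1 / 2 := by
    rw [div_le_div_iff₀ hpos (by norm_num)]
    linarith
  have h2 := one_sub_ge (x := 3 / (n : ℝ)) (by positivity) h1
  calc Real.exp (-36) ≤ Real.exp (-(2 * (3 / (n : ℝ)))) ^ (3 * D) := by
        rw [← Real.exp_nat_mul]
        apply Real.exp_le_exp.2
        push_cast
        have h3 : (D : ℝ) / n ≤ 2 := by
          rw [div_le_iff₀ hpos]
          exact hD'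
        have h4 : 3 * (D : ℝ) * -(2 * (3 / (n : ℝ))) = -(18 * ((D : ℝ) / n)) := by ring
        rw [h4]
        linarith
    _ ≤ (1 - 3 / (n : ℝ)) ^ (3 * D) :=
        pow_le_pow_left₀ (Real.exp_pos _).le h2 _

/-! ### Part 1: `Ms` and `Tm` -/

theorem part1 [Fintype V] (hEX : GoalEX) (θ c3 : ℝ)
    (hθ : ∀ v, Pr (fun ω : P.Om => P.col ω v = none) ≤ θ) (w : V) {a : ℕ} (ha : a < P.qm)
    (hc3 : c3 ≤ Pr (fun ω : P.Om => P.Tm ω w (P.cl (P.part w) a)))
    (hle : θ + 3 / (P.q : ℝ) ≤ c3 / 2) :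
    (((P.q : ℝ) - P.qm) / P.q) * (c3 / 2) ≤
      Pr (fun ω : P.Om => P.Ms ω w ∧ P.Tm ω w (P.cl (P.part w) a)) := by
  classical
  have hqpos : (0 : ℝ) < P.q := by exact_mod_cast P.q_pos
  by_cases hqq : P.qm < P.q
  swap
  · have h1 : P.qm = P.q := le_antisymm P.hqm (not_lt.1 hqq)
    rw [h1, sub_self, zero_div, zero_mul]
    exact Pr_nonneg _
  let g := P.cl (P.part w) a
  let W : Finset (ZMod P.N) := {g - 1, g, g + 1}
  have hWc : W.card ≤ 3 := Finset.card_le_three
  let b0 : Fin P.q := ⟨P.qm, hqq⟩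
  let x : ℝ := Pr (fun ω : P.Om => P.Tm ω w g ∧ P.col ω w = some b0)
  have hinv : ∀ ω ω', P.Agree W ω ω' → P.Tm ω w g → P.Tm ω' w g := by
    intro ω ω' h1 h2 u hu
    obtain ⟨h3, h4, h5⟩ := h2 u hu
    refine ⟨fun h => h3 (((h1 u).1 _ ?_).2 h), fun h => h4 (((h1 u).1 _ ?_).2 h),
      fun h => h5 (((h1 u).1 _ ?_).2 h)⟩ <;> simp [W]
  have hx : ∀ b : Fin P.q, (∀ h ∈ W, ¬ ((b : ℕ) < P.qm ∧ P.cl (P.part w) b = h)) →
      Pr (fun ω : P.Om => P.Tm ω w g ∧ P.col ω w = some b) = x := by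
    intro b hb
    exact hEX V P (fun ω => P.Tm ω w g) W hinv w b b0 hb
      (fun h _ h' => absurd h'.1 (lt_irrefl _))
  have hx0 : 0 ≤ x := Pr_nonneg _
  -- all colours have probability at most `1 / q`
  have hy : ∀ b : Fin P.q, Pr (fun ω : P.Om => P.col ω w = some b) ≤ 1 / P.q := by
    intro b
    have h1 : ∀ b' : Fin P.q, Pr (fun ω : P.Om => P.col ω w = some b') =
        Pr (fun ω : P.Om => P.col ω w = some b) := by
      intro b'
      have h2 := hEX V P (fun _ => True) ∅ (fun _ _ _ _ => trivial) w b' b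
        (fun g hg => absurd hg (Finset.notMem_empty g)) (fun g hg => absurd hg (Finset.notMem_empty g))
      simpa only [true_and] using h2
    have h3 := Pr_fiber (fun _ : P.Om => True) (s := (Finset.univ : Finset (Option (Fin P.q))))
      (fun ω => P.col ω w) (fun _ _ => Finset.mem_univ _)
    simp only [true_and] at h3
    rw [Fintype.sum_option] at h3
    have h4 : ∑ b' : Fin P.q, Pr (fun ω : P.Om => P.col ω w = some b') =
        P.q * Pr (fun ω : P.Om => P.col ω w = some b) := by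
      rw [Finset.sum_congr rfl (fun b' _ => h1 b'), Finset.sum_const, Finset.card_univ,
        Fintype.card_fin, nsmul_eq_mul]
    rw [h4] at h3
    have h5 : 0 ≤ Pr (fun ω : P.Om => P.col ω w = none) := Pr_nonneg _
    have h6 : Pr (fun _ : P.Om => True) ≤ 1 := Pr_le_one _
    rw [le_div_iff₀ hqpos, mul_comm]
    linarith
  -- the sum over the colours
  have hsum : Pr (fun ω : P.Om => P.Tm ω w g) ≤ θ + (P.q * x + 3 / P.q) := by
    rw [Pr_fiber (fun ω : P.Om => P.Tm ω w g) (s := (Finset.univ : Finset (Option (Fin P.q))))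
      (fun ω => P.col ω w) (fun _ _ => Finset.mem_univ _), Fintype.sum_option]
    have h1 : Pr (fun ω : P.Om => P.Tm ω w g ∧ P.col ω w = none) ≤ θ :=
      (Pr_mono fun ω h => h.2).trans (hθ w)
    have h2 : ∀ b : Fin P.q, Pr (fun ω : P.Om => P.Tm ω w g ∧ P.col ω w = some b) ≤
        x + if ((b : ℕ) < P.qm ∧ P.cl (P.part w) b ∈ W) then 1 / (P.q : ℝ) else 0 := by
      intro b
      by_cases hb : ((b : ℕ) < P.qm ∧ P.cl (P.part w) b ∈ W)
      · rw [if_pos hb]
        have h3 := (Pr_mono (A := fun ω : P.Om => P.Tm ω w g ∧ P.col ω w = some b)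
          (B := fun ω : P.Om => P.col ω w = some b) (fun ω h => h.2)).trans (hy b)
        linarith
      · rw [if_neg hb, add_zero]
        exact (hx b fun h hh h' => hb ⟨h'.1, by rw [h'.2]; exact hh⟩).le
    have h3 : ∑ b : Fin P.q, Pr (fun ω : P.Om => P.Tm ω w g ∧ P.col ω w = some b) ≤
        P.q * x + 3 / P.q := by
      refine (Finset.sum_le_sum fun b _ => h2 b).trans ?_
      rw [Finset.sum_add_distrib, Finset.sum_const, Finset.card_univ, Fintype.card_fin,
        nsmul_eq_mul, ← Finset.sum_filter, Finset.sum_const, nsmul_eq_mul]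
      have h4 : (((Finset.univ.filter fun b : Fin P.q =>
          (b : ℕ) < P.qm ∧ P.cl (P.part w) b ∈ W).card : ℕ) : ℝ) ≤ 3 := by
        exact_mod_cast (card_cl_le' P (P.part w) (P.part_lt w) W).trans hWc
      have h5 : (((Finset.univ.filter fun b : Fin P.q =>
          (b : ℕ) < P.qm ∧ P.cl (P.part w) b ∈ W).card : ℕ) : ℝ) * (1 / P.q) ≤ 3 / P.q := by
        rw [mul_one_div]
        gcongr
      linarith
    linarith
  have hxge : c3 / 2 ≤ P.q * x := by linarith
  -- the colours which are not main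
  have hMs : ((P.q : ℝ) - P.qm) * x ≤ Pr (fun ω : P.Om => P.Ms ω w ∧ P.Tm ω w g) := by
    rw [Pr_fiber (fun ω : P.Om => P.Ms ω w ∧ P.Tm ω w g)
      (s := (Finset.univ : Finset (Option (Fin P.q))))
      (fun ω => P.col ω w) (fun _ _ => Finset.mem_univ _), Fintype.sum_option]
    have h1 : 0 ≤ Pr (fun ω : P.Om => (P.Ms ω w ∧ P.Tm ω w g) ∧ P.col ω w = none) :=
      Pr_nonneg _
    have h2 : ∀ b : Fin P.q, (if P.qm ≤ (b : ℕ) then x else 0) ≤
        Pr (fun ω : P.Om => (P.Ms ω w ∧ P.Tm ω w g) ∧ P.col ω w = some b) := by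
      intro b
      by_cases hb : P.qm ≤ (b : ℕ)
      · rw [if_pos hb, ← hx b (fun h _ h' => absurd h'.1 (not_lt.2 hb))]
        apply Pr_mono
        rintro ω ⟨h3, h4⟩
        refine ⟨⟨?_, h3⟩, h4⟩
        intro b' hb'
        rw [h4] at hb'
        rw [← Option.some.inj hb']
        exact hb
      · rw [if_neg hb]
        exact Pr_nonneg _
    have h3 : ((P.q : ℝ) - P.qm) * x ≤
        ∑ b : Fin P.q, Pr (fun ω : P.Om => (P.Ms ω w ∧ P.Tm ω w g) ∧ P.col ω w = some b) := by
      refine le_trans ?_ (Finset.sum_le_sum fun b _ => h2 b)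
      rw [← Finset.sum_filter, Finset.sum_const, nsmul_eq_mul]
      have h4 := Finset.card_filter_add_card_filter_not (s := (Finset.univ : Finset (Fin P.q)))
        (fun b : Fin P.q => (b : ℕ) < P.qm)
      have h5 : (Finset.univ.filter fun b : Fin P.q => (b : ℕ) < P.qm).card = P.qm := by
        rw [Fin.card_filter_val_lt]
        exact min_eq_right P.hqm
      have h6 : (Finset.univ.filter fun b : Fin P.q => ¬ (b : ℕ) < P.qm) =
          Finset.univ.filter fun b : Fin P.q => P.qm ≤ (b : ℕ) := by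
        ext b
        simp
      rw [h5, h6, Finset.card_univ, Fintype.card_fin] at h4
      have h7 : ((Finset.univ.filter fun b : Fin P.q => P.qm ≤ (b : ℕ)).card : ℝ) =
          (P.q : ℝ) - P.qm := by
        have h9 : (P.qm : ℝ) +
            ((Finset.univ.filter fun b : Fin P.q => P.qm ≤ (b : ℕ)).card : ℝ) = P.q := by
          exact_mod_cast h4
        linarith
      rw [h7]
    linarith
  refine le_trans ?_ hMs
  have h8 : (0 : ℝ) ≤ (P.q : ℝ) - P.qm := by
    have : (P.qm : ℝ) ≤ P.q := by exact_mod_cast P.hqm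
    linarith
  calc ((P.q : ℝ) - P.qm) / P.q * (c3 / 2) ≤ ((P.q : ℝ) - P.qm) / P.q * (P.q * x) := by
        gcongr
    _ = ((P.q : ℝ) - P.qm) * x := by
        field_simp

/-! ### Part 2: the proposals -/

/-- the proposals are independent of the rest -/
theorem split_proposals [Fintype V] (F : P.Om → Prop) (Gp : V → Fin P.qm × Fin P.J → Prop)
    (hF : ∀ ω ω' : P.Om, (∀ v, (ω v).1 = (ω' v).1 ∧ (ω v).2.1 = (ω' v).2.1) → (F ω ↔ F ω')) :
    Pr (fun ω : P.Om => F ω ∧ ∀ v, Gp v (ω v).2.2.2) = Pr F * ∏ v, Pr (Gp v) := by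
  classical
  let X : Type := (Bool × Fin P.q) × (Fin P.Z × Equiv.Perm (Fin P.q)) × (Fin P.J → Fin P.L)
  let Y : Type := Fin P.qm × Fin P.J
  let e : P.Om ≃ (V → X) × (V → Y) :=
    { toFun := fun ω => (fun v => ((ω v).1, (ω v).2.1, (ω v).2.2.1), fun v => (ω v).2.2.2)
      invFun := fun z v => ((z.1 v).1, (z.1 v).2.1, (z.1 v).2.2, z.2 v)
      left_inv := fun ω => rfl
      right_inv := fun z => rfl }
  haveI : Finite X := by unfold X; infer_instance
  haveI : Finite Y := by unfold Y; infer_instance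
  haveI : Nonempty Y := by unfold Y; infer_instance
  let y0 : V → Y := fun _ => Classical.arbitrary Y
  have h1 : ∀ z : (V → X) × (V → Y), F (e.symm z) ↔ F (e.symm (z.1, y0)) := fun z =>
    hF _ _ fun v => ⟨rfl, rfl⟩
  rw [← Pr_equiv e.symm (fun ω : P.Om => F ω ∧ ∀ v, Gp v (ω v).2.2.2)]
  rw [Pr_congr (B := fun z : (V → X) × (V → Y) => F (e.symm (z.1, y0)) ∧ ∀ v, Gp v (z.2 v))
    (fun z => by rw [h1 z]; exact Iff.rfl)]
  rw [Pr_prod (fun z1 : V → X => F (e.symm (z1, y0))) (fun z2 : V → Y => ∀ v, Gp v (z2 v))]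
  congr 1
  · rw [← Pr_fst (β := V → Y) (fun z1 : V → X => F (e.symm (z1, y0))), ← Pr_equiv e.symm F]
    exact Pr_congr fun z => (h1 z).symm
  · exact Pr_pi Gp

end

theorem goalIN : GoalEX → GoalIN := by
  classical
  intro hEX V _ P θ c3 hθ hc3 hle hc w a ha j hj
  have hP1 := part1 P hEX θ c3 hθ w ha (hc3 w a ha) hle
  have hqpos : (0 : ℝ) < P.q := by exact_mod_cast P.q_pos
  have hqmpos : (0 : ℝ) < P.qm := by exact_mod_cast P.qm_pos
  have hJpos : (0 : ℝ) < P.J := by
    have := P.hJ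
    exact_mod_cast (by omega : 0 < P.J)
  let g := P.cl (P.part w) a
  let W : Finset (ZMod P.N) := {g - 1, g, g + 1}
  have hWc : W.card ≤ 3 := Finset.card_le_three
  let Gp : V → Fin P.qm × Fin P.J → Prop := fun u y =>
    (u = w → (y.1 : ℕ) = a ∧ (y.2 : ℕ) = j) ∧ (P.H.Adj w u → P.cl (P.part u) y.1 ∉ W)
  have hIns : ∀ ω : P.Om, (P.Ms ω w ∧ P.Tm ω w g) ∧ (∀ v, Gp v (ω v).2.2.2) → P.Ins ω w a j := by
    rintro ω ⟨⟨h1, h2⟩, h3⟩
    refine ⟨h1, ((h3 w).1 rfl).1, ((h3 w).1 rfl).2, h2, ?_⟩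
    intro u hu
    have h4 := (h3 u).2 hu
    simp only [W, Finset.mem_insert, Finset.mem_singleton, not_or] at h4
    exact h4
  have hsplit := split_proposals P (fun ω => P.Ms ω w ∧ P.Tm ω w g) Gp (by
    intro ω ω' h
    have h1 := col_congr P h
    rw [Ms_congr P h1, Tm_congr P h1])
  -- the factor of `w`
  have hw : 1 / ((P.qm : ℝ) * P.J) ≤ Pr (Gp w) := by
    rw [Pr_eq_card, Fintype.card_prod, Fintype.card_fin, Fintype.card_fin]
    push_cast
    have h1 : (1 : ℝ) ≤ ((Finset.univ.filter (Gp w)).card : ℝ) := by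
      have : 0 < (Finset.univ.filter (Gp w)).card := by
        rw [Finset.card_pos]
        refine ⟨(⟨a, ha⟩, ⟨j, hj⟩), Finset.mem_filter.2 ⟨Finset.mem_univ _, ?_⟩⟩
        exact ⟨fun _ => ⟨rfl, rfl⟩, fun h => absurd h (P.H.loopless.irrefl w)⟩
      exact_mod_cast this
    gcongr
  -- the factors of the other vertices
  let M : Finset V := Finset.univ.filter fun u => P.H.Adj w u ∧ near P.K (P.part w) (P.part u)
  have hM : M.card ≤ 3 * P.D := by
    have := card_near_le P w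
    rwa [Nat.card_eq_fintype_card, Fintype.card_subtype] at this
  have h6 : 6 ≤ P.qm := by have := P.hJqm; omega
  have h6' : (6 : ℝ) ≤ P.qm := by exact_mod_cast h6
  have hr0 : 0 ≤ 1 - 3 / (P.qm : ℝ) := by
    rw [sub_nonneg, div_le_one hqmpos]
    linarith
  have hr1 : 1 - 3 / (P.qm : ℝ) ≤ 1 := by
    have : 0 ≤ 3 / (P.qm : ℝ) := by positivity
    linarith
  have hu : ∀ u, u ≠ w → (if u ∈ M then 1 - 3 / (P.qm : ℝ) else 1) ≤ Pr (Gp u) := by
    intro u huw
    by_cases huM : u ∈ M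
    · rw [if_pos huM]
      have h1 : Pr (fun y : Fin P.qm × Fin P.J => P.cl (P.part u) y.1 ∉ W) ≤ Pr (Gp u) :=
        Pr_mono fun y hy => ⟨fun h => absurd h huw, fun _ => hy⟩
      refine le_trans ?_ h1
      rw [Pr_fst (β := Fin P.J) (fun b : Fin P.qm => P.cl (P.part u) b ∉ W), Pr_eq_card,
        Fintype.card_fin]
      have h2 := Finset.card_filter_add_card_filter_not (s := (Finset.univ : Finset (Fin P.qm)))
        (fun b : Fin P.qm => P.cl (P.part u) b ∈ W)
      rw [Finset.card_univ, Fintype.card_fin] at h2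
      have h3 := (card_cl_le P (P.part u) (P.part_lt u) W).trans hWc
      have h4 : (P.qm : ℝ) - 3 ≤
          ((Finset.univ.filter fun b : Fin P.qm => P.cl (P.part u) b ∉ W).card : ℝ) := by
        have h5 : P.qm ≤
            (Finset.univ.filter fun b : Fin P.qm => P.cl (P.part u) b ∉ W).card + 3 := by
          omega
        have h7 : (P.qm : ℝ) ≤
            ((Finset.univ.filter fun b : Fin P.qm => P.cl (P.part u) b ∉ W).card : ℝ) + 3 := by
          exact_mod_cast h5
        linarith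
      rw [le_div_iff₀ hqmpos]
      have h8 : (1 - 3 / (P.qm : ℝ)) * P.qm = P.qm - 3 := by
        field_simp
      rw [h8]
      exact h4
    · rw [if_neg huM]
      have h1 : Pr (Gp u) = 1 := by
        rw [Pr_congr (B := fun _ => True)]
        · exact Pr_true
        · intro y
          refine ⟨fun _ => trivial, fun _ => ⟨fun h => absurd h huw, fun hadj hW => ?_⟩⟩
          apply huM
          refine Finset.mem_filter.2 ⟨Finset.mem_univ _, hadj, ?_⟩
          simp only [W, Finset.mem_insert, Finset.mem_singleton] at hW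
          exact near_of_mem P (P.part_lt w) (P.part_lt u) ha y.1.2 hW
      rw [h1]
  have hprod : 1 / ((P.qm : ℝ) * P.J) * Real.exp (-36) ≤ ∏ v, Pr (Gp v) := by
    rw [← Finset.mul_prod_erase Finset.univ (fun v => Pr (Gp v)) (Finset.mem_univ w)]
    apply mul_le_mul hw ?_ (Real.exp_pos _).le (Pr_nonneg _)
    calc Real.exp (-36) ≤ (1 - 3 / (P.qm : ℝ)) ^ (3 * P.D) := pow_ge P.qm P.D h6 P.hqm2
      _ ≤ (1 - 3 / (P.qm : ℝ)) ^ M.card := pow_le_pow_of_le_one hr0 hr1 hM
      _ = ∏ u, (if u ∈ M then 1 - 3 / (P.qm : ℝ) else 1) := by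
          rw [Finset.prod_ite_mem, Finset.univ_inter, Finset.prod_const]
      _ = ∏ u ∈ Finset.univ.erase w, (if u ∈ M then 1 - 3 / (P.qm : ℝ) else 1) := by
          rw [← Finset.mul_prod_erase Finset.univ _ (Finset.mem_univ w), if_neg, one_mul]
          intro h
          exact P.H.loopless.irrefl w (Finset.mem_filter.1 h).2.1
      _ ≤ ∏ u ∈ Finset.univ.erase w, Pr (Gp u) := by
          apply Finset.prod_le_prod
          · intro u _
            split_ifs
            · exact hr0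
            · exact zero_le_one
          · intro u hu'
            exact hu u (Finset.ne_of_mem_erase hu')
  have hfin : Pr (fun ω : P.Om => (P.Ms ω w ∧ P.Tm ω w g) ∧ ∀ v, Gp v (ω v).2.2.2) ≤
      Pr (fun ω : P.Om => P.Ins ω w a j) := Pr_mono hIns
  refine le_trans ?_ hfin
  rw [hsplit]
  have h8 : (0 : ℝ) ≤ (P.q : ℝ) - P.qm := by
    have : (P.qm : ℝ) ≤ P.q := by exact_mod_cast P.hqm
    linarith
  have h9 : 0 ≤ ((P.q : ℝ) - P.qm) / P.q * (c3 / 2) := by positivity
  calc ((P.q : ℝ) - P.qm) / P.q * (c3 / 2) * Real.exp (-36) / ((P.q : ℝ) * P.J)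
      = ((P.q : ℝ) - P.qm) / P.q * (c3 / 2) * (1 / ((P.q : ℝ) * P.J) * Real.exp (-36)) := by
        field_simp
    _ ≤ ((P.q : ℝ) - P.qm) / P.q * (c3 / 2) * (1 / ((P.qm : ℝ) * P.J) * Real.exp (-36)) := by
        have h10 : (P.qm : ℝ) ≤ P.q := by exact_mod_cast P.hqm
        gcongr
    _ ≤ Pr (fun ω : P.Om => P.Ms ω w ∧ P.Tm ω w g) * ∏ v, Pr (Gp v) := by
        apply mul_le_mul hP1 hprod _ (Pr_nonneg _)
        positivity

end Pool.Agent.Helper71.Sey3
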